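import Mathlib

/-!
# Plane layers (shared definitions for the geometric thickness problem)
-/

namespace Pool.Agent.GT

/-- The relation `E` (edges), drawn with straight segments between the points `pos v`, is plane:
no edge passes through a vertex other than its end points, and two different edges meet only in
shared end points. -/
def Plane {V : Type*} (pos : V → ℝ × ℝ) (E : V → V → Prop) : Prop :=
  (∀ u v w, E u v → pos w ∈ segment ℝ (pos u) (pos v) → w = u ∨ w = v) ∧
  (∀ u v u' v', E u v → E u' v' → s(u, v) ≠ s(u', v') →
    ∀ z, z ∈ segment ℝ (pos u) (pos v) → z ∈ segment ℝ (pos u') (pos v') →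
      ∃ w, (w = u ∨ w = v) ∧ (w = u' ∨ w = v') ∧ z = pos w)

/-- Part A (target): a plane graph on `N ≥ 1` points has fewer than `3 N` edges. -/
def PartA : Prop :=
  ∀ (V : Type) [Finite V] [Nonempty V] (pos : V → ℝ × ℝ) (G : SimpleGraph V),
    Function.Injective pos → Plane pos G.Adj → G.edgeSet.ncard < 3 * Nat.card V

/-- Part B (target): the base configuration with `K` variants. -/
def PartB : Prop :=
  ∀ (K : ℕ), 1 ≤ K → ∃ (P : Type) (_ : Finite P) (_ : Nonempty P) (pos : P → ℝ × ℝ)
    (κ : P → ZMod K) (A : ZMod K → SimpleGraph P),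
    Function.Injective (fun p => (pos p).1) ∧ Function.Injective (fun p => (pos p).2) ∧
    (∀ r, Plane pos (A r).Adj) ∧
    ∀ r p, ((A r).neighborSet p).ncard + (if κ p = r then 1 else 0) = 6

end Pool.Agent.GT
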