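import Pool.Agent.GT.Defs

/-!
# Part A: a plane straight-line graph on `N ≥ 1` points has fewer than `3 N` edges

Elementary proof without Euler's formula: every edge that is not the lowest right-going edge of
its left end is charged to the leftmost vertex of the wedge below it.
-/

namespace Pool.Agent.GT

/-- slope of the line through the points of `u` and `v` -/
noncomputable def sl {V : Type*} (pos : V → ℝ × ℝ) (u v : V) : ℝ :=
  ((pos v).2 - (pos u).2) / ((pos v).1 - (pos u).1)

section

variable {V : Type*} {pos : V → ℝ × ℝ} {G : SimpleGraph V}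

lemma mem_seg {p q : V} {X : ℝ} (h : (pos p).1 < (pos q).1) (h1 : (pos p).1 ≤ X)
    (h2 : X ≤ (pos q).1) :
    (X, (pos p).2 + sl pos p q * (X - (pos p).1)) ∈ segment ℝ (pos p) (pos q) := by
  have hd : 0 < (pos q).1 - (pos p).1 := by linarith
  refine ⟨1 - (X - (pos p).1) / ((pos q).1 - (pos p).1), (X - (pos p).1) / ((pos q).1 - (pos p).1),
    ?_, ?_, by ring, ?_⟩
  · rw [sub_nonneg, div_le_one hd]
    linarith
  · exact div_nonneg (by linarith) hd.le
  · ext
    · simp only [Prod.fst_add, Prod.smul_fst, smul_eq_mul]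
      field_simp
      ring
    · simp only [Prod.snd_add, Prod.smul_snd, smul_eq_mul, sl]
      field_simp
      ring

lemma crossing (hP : Plane pos G.Adj) {p q p' q' : V} (hpq : G.Adj p q) (hpq' : G.Adj p' q')
    (h : (pos p).1 < (pos q).1) (h' : (pos p').1 < (pos q').1) (hlt : (pos p).1 < (pos p').1)
    {T : ℝ} (hT : (pos p').1 < T) (hTq : T ≤ (pos q).1) (hTq' : T ≤ (pos q').1)
    {s t : ℝ}
    (hs : s = ((pos p').2 + sl pos p' q' * ((pos p').1 - (pos p').1)) -
      ((pos p).2 + sl pos p q * ((pos p').1 - (pos p).1)))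
    (ht : t = ((pos p').2 + sl pos p' q' * (T - (pos p').1)) -
      ((pos p).2 + sl pos p q * (T - (pos p).1)))
    (hst : s * t < 0) : False := by
  have hne : s - t ≠ 0 := by
    intro h0
    have : s = t := by linarith
    rw [this] at hst
    nlinarith [mul_self_nonneg t]
  -- the parameter of the crossing point
  obtain ⟨lam, hlam0, hlam1, hlam⟩ : ∃ lam : ℝ, 0 < lam ∧ lam < 1 ∧ s + lam * (t - s) = 0 := by
    refine ⟨s / (s - t), ?_, ?_, ?_⟩
    · rcases lt_or_gt_of_ne hne with h0 | h0
      · rcases mul_neg_iff.1 hst with ⟨h1, h2⟩ | ⟨h1, h2⟩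
        · linarith
        · exact div_pos_of_neg_of_neg h1 h0
      · rcases mul_neg_iff.1 hst with ⟨h1, h2⟩ | ⟨h1, h2⟩
        · exact div_pos h1 h0
        · linarith
    · rcases lt_or_gt_of_ne hne with h0 | h0
      · rw [div_lt_one_of_neg h0]
        rcases mul_neg_iff.1 hst with ⟨h1, h2⟩ | ⟨h1, h2⟩ <;> linarith
      · rw [div_lt_one h0]
        rcases mul_neg_iff.1 hst with ⟨h1, h2⟩ | ⟨h1, h2⟩ <;> linarith
    · field_simp
      ring
  set X := (pos p').1 + lam * (T - (pos p').1) with hX
  have hX1 : (pos p').1 < X := by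
    rw [hX]
    have := mul_pos hlam0 (sub_pos.2 hT)
    linarith
  have hX2 : X < T := by
    rw [hX]
    nlinarith [mul_pos (sub_pos.2 hlam1) (sub_pos.2 hT)]
  have hz1 := mem_seg (X := X) h (by linarith) (by linarith)
  have hz2 := mem_seg (X := X) h' (by linarith) (by linarith)
  have hyy : (pos p).2 + sl pos p q * (X - (pos p).1) =
      (pos p').2 + sl pos p' q' * (X - (pos p').1) := by
    have e : s + lam * (t - s) = ((pos p').2 + sl pos p' q' * (X - (pos p').1)) -
        ((pos p).2 + sl pos p q * (X - (pos p).1)) := by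
      rw [hs, ht, hX]
      ring
    rw [hlam] at e
    linarith
  rw [hyy] at hz1
  have hneq : s(p, q) ≠ s(p', q') := by
    intro he
    rw [Sym2.eq_iff] at he
    rcases he with ⟨h1, h2⟩ | ⟨h1, h2⟩
    · rw [h1] at hlt
      exact lt_irrefl _ hlt
    · rw [h1] at hlt
      linarith
  obtain ⟨w, hw1, hw2, hw3⟩ := hP.2 p q p' q' hpq hpq' hneq _ hz1 hz2
  have hwX : X = (pos w).1 := congrArg Prod.fst hw3
  rcases hw2 with rfl | rfl
  · linarith
  · linarith

/-- `b` is the right neighbour of `v` just below `a`, and `w` is the leftmost vertex in the wedge -/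
structure Wedge (pos : V → ℝ × ℝ) (G : SimpleGraph V) (v a b w : V) : Prop where
  adja : G.Adj v a
  xa : (pos v).1 < (pos a).1
  adjb : G.Adj v b
  xb : (pos v).1 < (pos b).1
  lt : sl pos v b < sl pos v a
  next : ∀ c, G.Adj v c → (pos v).1 < (pos c).1 → sl pos v c < sl pos v a →
    sl pos v c ≤ sl pos v b
  xw : (pos v).1 < (pos w).1
  wb : sl pos v b ≤ sl pos v w
  wa : sl pos v w ≤ sl pos v a
  least : ∀ p, (pos v).1 < (pos p).1 → sl pos v b ≤ sl pos v p → sl pos v p ≤ sl pos v a →
    (pos w).1 ≤ (pos p).1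

lemma exists_wedge [Finite V] {v a c : V} (ha : G.Adj v a) (hxa : (pos v).1 < (pos a).1)
    (hc : G.Adj v c) (hxc : (pos v).1 < (pos c).1) (hca : sl pos v c < sl pos v a) :
    ∃ b w, Wedge pos G v a b w := by
  classical
  have := Fintype.ofFinite V
  obtain ⟨b, hb, hbmax⟩ := Finset.exists_max_image
    (Finset.univ.filter fun c => G.Adj v c ∧ (pos v).1 < (pos c).1 ∧ sl pos v c < sl pos v a)
    (fun c => sl pos v c) ⟨c, by simp [hc, hxc, hca]⟩
  simp only [Finset.mem_filter, Finset.mem_univ, true_and] at hb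
  obtain ⟨w, hw, hwmin⟩ := Finset.exists_min_image
    (Finset.univ.filter fun p => (pos v).1 < (pos p).1 ∧ sl pos v b ≤ sl pos v p ∧
      sl pos v p ≤ sl pos v a)
    (fun p => (pos p).1) ⟨a, by simp [hxa, hb.2.2.le]⟩
  simp only [Finset.mem_filter, Finset.mem_univ, true_and] at hw
  refine ⟨b, w, ha, hxa, hb.1, hb.2.1, hb.2.2, ?_, hw.1, hw.2.1, hw.2.2, ?_⟩
  · intro d hd hxd hda
    exact hbmax d (by simp [hd, hxd, hda])
  · intro p hp1 hp2 hp3
    exact hwmin p (by simp [hp1, hp2, hp3])

/-- height formula: `y_p = y_v + slope * (x_p - x_v)` -/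
lemma height {v p : V} (h : (pos v).1 < (pos p).1) :
    (pos p).2 = (pos v).2 + sl pos v p * ((pos p).1 - (pos v).1) := by
  have : (pos p).1 - (pos v).1 ≠ 0 := by linarith
  rw [sl]
  field_simp
  ring

lemma same_slope (hP : Plane pos G.Adj) {v a w : V} (ha : G.Adj v a)
    (hxa : (pos v).1 < (pos a).1) (hxw : (pos v).1 < (pos w).1) (hle : (pos w).1 ≤ (pos a).1)
    (hs : sl pos v w = sl pos v a) : w = a := by
  have h1 := mem_seg (X := (pos w).1) hxa hxw.le hle
  have h2 : ((pos w).1, (pos v).2 + sl pos v a * ((pos w).1 - (pos v).1)) = pos w := by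
    ext
    · rfl
    · simp only
      rw [← hs]
      exact (height hxw).symm
  rw [h2] at h1
  rcases hP.1 v a w ha h1 with rfl | rfl
  · exact absurd hxw (lt_irrefl _)
  · rfl

lemma wedge_aux (hP : Plane pos G.Adj) {v a b w v' a' b' : V} (h : Wedge pos G v a b w)
    (h' : Wedge pos G v' a' b' w) (hww : w = a ↔ w = a') (hlt : (pos v).1 < (pos v').1) :
    False := by
  have hxwa : (pos w).1 ≤ (pos a).1 := h.least a h.xa h.lt.le le_rfl
  have hxwb : (pos w).1 ≤ (pos b).1 := h.least b h.xb le_rfl h.lt.le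
  have hxwa' : (pos w).1 ≤ (pos a').1 := h'.least a' h'.xa h'.lt.le le_rfl
  have hxwb' : (pos w).1 ≤ (pos b').1 := h'.least b' h'.xb le_rfl h'.lt.le
  have hd1 : 0 < (pos w).1 - (pos v).1 := sub_pos.2 h.xw
  have hd2 : 0 < (pos w).1 - (pos v').1 := sub_pos.2 h'.xw
  have hd3 : 0 < (pos v').1 - (pos v).1 := sub_pos.2 hlt
  have hyw := height h.xw
  have hyw' := height h'.xw
  have hyv' := height hlt
  -- strictness
  have hst : (sl pos v w < sl pos v a ∧ sl pos v' w < sl pos v' a') ∨
      (w = a ∧ w = a') := by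
    by_cases hwa : w = a
    · exact Or.inr ⟨hwa, hww.1 hwa⟩
    · have hwa' : w ≠ a' := fun e => hwa (hww.2 e)
      left
      constructor
      · refine lt_of_le_of_ne h.wa fun e => hwa ?_
        exact same_slope hP h.adja h.xa h.xw hxwa e
      · refine lt_of_le_of_ne h'.wa fun e => hwa' ?_
        exact same_slope hP h'.adja h'.xa h'.xw hxwa' e
  have hout : sl pos v v' < sl pos v b ∨ sl pos v a < sl pos v v' := by
    by_contra hcon
    rw [not_or, not_lt, not_lt] at hcon
    have := h.least v' hlt hcon.1 hcon.2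
    linarith [h'.xw]
  rcases hout with hout | hout
  · -- `v'` below the line `v b`; the segment `v' a'` crosses `v b`
    refine crossing hP h.adjb h'.adja h.xb h'.xa hlt h'.xw hxwb hxwa' rfl rfl ?_
    apply mul_neg_of_neg_of_pos
    · have := mul_pos (sub_pos.2 hout) hd3
      nlinarith
    · have h1 : 0 ≤ (sl pos v w - sl pos v b) * ((pos w).1 - (pos v).1) :=
        mul_nonneg (sub_nonneg.2 h.wb) hd1.le
      have h2 : 0 ≤ (sl pos v' a' - sl pos v' w) * ((pos w).1 - (pos v').1) :=
        mul_nonneg (sub_nonneg.2 h'.wa) hd2.le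
      rcases hst with ⟨_, hs2⟩ | ⟨hs1, _⟩
      · have h3 : 0 < (sl pos v' a' - sl pos v' w) * ((pos w).1 - (pos v').1) :=
          mul_pos (sub_pos.2 hs2) hd2
        nlinarith
      · have h3 : 0 < (sl pos v w - sl pos v b) * ((pos w).1 - (pos v).1) := by
          apply mul_pos _ hd1
          rw [hs1]
          exact sub_pos.2 h.lt
        nlinarith
  · -- `v'` above the line `v a`; the segment `v' b'` crosses `v a`
    refine crossing hP h.adja h'.adjb h.xa h'.xb hlt h'.xw hxwa hxwb' rfl rfl ?_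
    apply mul_neg_of_pos_of_neg
    · have := mul_pos (sub_pos.2 hout) hd3
      nlinarith
    · have h1 : 0 ≤ (sl pos v a - sl pos v w) * ((pos w).1 - (pos v).1) :=
        mul_nonneg (sub_nonneg.2 h.wa) hd1.le
      have h2 : 0 ≤ (sl pos v' w - sl pos v' b') * ((pos w).1 - (pos v').1) :=
        mul_nonneg (sub_nonneg.2 h'.wb) hd2.le
      rcases hst with ⟨hs1, _⟩ | ⟨_, hs2⟩
      · have h3 : 0 < (sl pos v a - sl pos v w) * ((pos w).1 - (pos v).1) :=
          mul_pos (sub_pos.2 hs1) hd1
        nlinarith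
      · have h3 : 0 < (sl pos v' w - sl pos v' b') * ((pos w).1 - (pos v').1) := by
          apply mul_pos _ hd2
          rw [hs2]
          exact sub_pos.2 h'.lt
        nlinarith

lemma wedge_inj (hP : Plane pos G.Adj) (hx : Function.Injective fun v => (pos v).1)
    {v a b w v' a' b' : V} (h : Wedge pos G v a b w)
    (h' : Wedge pos G v' a' b' w) (hww : w = a ↔ w = a') : v = v' ∧ a = a' := by
  have hvv : v = v' := by
    rcases lt_trichotomy (pos v).1 (pos v').1 with hlt | heq | hlt
    · exact (wedge_aux hP h h' hww hlt).elim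
    · exact hx heq
    · exact (wedge_aux hP h' h hww.symm hlt).elim
  subst hvv
  refine ⟨rfl, ?_⟩
  have hxwa : (pos w).1 ≤ (pos a).1 := h.least a h.xa h.lt.le le_rfl
  have hxwa' : (pos w).1 ≤ (pos a').1 := h'.least a' h'.xa h'.lt.le le_rfl
  by_cases hwa : w = a
  · rw [← hwa, ← hww.1 hwa]
  have hwa' : w ≠ a' := fun e => hwa (hww.2 e)
  have h1 : sl pos v w < sl pos v a :=
    lt_of_le_of_ne h.wa fun e => hwa (same_slope hP h.adja h.xa h.xw hxwa e)
  have h2 : sl pos v w < sl pos v a' :=
    lt_of_le_of_ne h'.wa fun e => hwa' (same_slope hP h'.adja h'.xa h'.xw hxwa' e)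
  rcases lt_trichotomy (sl pos v a) (sl pos v a') with hlt | heq | hlt
  · have := h'.next a h.adja h.xa hlt
    linarith [h'.wb]
  · rcases le_total (pos a).1 (pos a').1 with hle | hle
    · exact same_slope hP h'.adja h'.xa h.xa hle heq
    · exact (same_slope hP h.adja h.xa h'.xa hle heq.symm).symm
  · have := h.next a' h'.adja h'.xa hlt
    linarith [h.wb]

end

theorem edges_lt_of_inj {V : Type*} [Finite V] [Nonempty V] (pos : V → ℝ × ℝ) (G : SimpleGraph V)
    (hx : Function.Injective fun v => (pos v).1) (hP : Plane pos G.Adj) :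
    G.edgeSet.ncard < 3 * Nat.card V := by
  classical
  have := Fintype.ofFinite V
  -- oriented edges
  set D : Finset (V × V) := Finset.univ.filter fun e => G.Adj e.1 e.2 ∧ (pos e.1).1 < (pos e.2).1
    with hD
  have hE : G.edgeSet.ncard ≤ D.card := by
    have hsub : G.edgeSet ⊆ ((D.image fun e => s(e.1, e.2) : Finset (Sym2 V)) : Set (Sym2 V)) := by
      intro e he
      induction e using Sym2.ind with
      | _ u v =>
        rw [SimpleGraph.mem_edgeSet] at he
        rw [Finset.coe_image, Set.mem_image]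
        have hne : (pos u).1 ≠ (pos v).1 := fun h => he.ne (hx h)
        rcases lt_or_gt_of_ne hne with h | h
        · exact ⟨(u, v), by simp [hD, he, h], rfl⟩
        · exact ⟨(v, u), by simp [hD, he.symm, h], Sym2.eq_swap⟩
    calc G.edgeSet.ncard ≤ _ := Set.ncard_le_ncard hsub (Finset.finite_toSet _)
      _ = _ := Set.ncard_coe_finset _
      _ ≤ D.card := Finset.card_image_le
  set D1 : Finset (V × V) := D.filter fun e => ∃ c, G.Adj e.1 c ∧ (pos e.1).1 < (pos c).1 ∧
    sl pos e.1 c < sl pos e.1 e.2 with hD1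
  set D0 : Finset (V × V) := D.filter fun e => ¬ ∃ c, G.Adj e.1 c ∧ (pos e.1).1 < (pos c).1 ∧
    sl pos e.1 c < sl pos e.1 e.2 with hD0
  have hcard : D1.card + D0.card = D.card := Finset.card_filter_add_card_filter_not _
  -- lowest right-going edges
  obtain ⟨m, hm⟩ : ∃ m : V, ∀ v, (pos v).1 ≤ (pos m).1 := Finite.exists_max fun v => (pos v).1
  have h0 : D0.card < Fintype.card V := by
    have hle : D0.card ≤ (Finset.univ.erase m).card := by
      refine Finset.card_le_card_of_injOn (fun e => e.1) ?_ ?_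
      · intro e he
        rw [Finset.mem_coe, hD0, Finset.mem_filter, hD, Finset.mem_filter] at he
        rw [Finset.mem_coe, Finset.mem_erase]
        refine ⟨fun h => ?_, Finset.mem_univ _⟩
        have h1 := he.1.2.2
        have h2 : e.1 = m := h
        rw [h2] at h1
        exact absurd (hm e.2) (not_le.2 h1)
      · rintro ⟨v, a⟩ he ⟨v', a'⟩ he' hvv
        simp only at hvv
        subst hvv
        rw [Finset.mem_coe, hD0, Finset.mem_filter, hD, Finset.mem_filter] at he he'
        obtain ⟨⟨-, ha, hxa⟩, hno⟩ := he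
        obtain ⟨⟨-, ha', hxa'⟩, hno'⟩ := he'
        simp only at ha hxa hno ha' hxa' hno'
        have h1 : ¬ sl pos v a' < sl pos v a := fun h => hno ⟨a', ha', hxa', h⟩
        have h2 : ¬ sl pos v a < sl pos v a' := fun h => hno' ⟨a, ha, hxa, h⟩
        have h3 : sl pos v a = sl pos v a' := le_antisymm (not_lt.1 h1) (not_lt.1 h2)
        have h4 : a = a' := by
          rcases le_total (pos a).1 (pos a').1 with hle | hle
          · exact same_slope hP ha' hxa' hxa hle h3
          · exact (same_slope hP ha hxa hxa' hle h3.symm).symm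
        rw [h4]
    have := Finset.card_erase_lt_of_mem (Finset.mem_univ m)
    rw [Finset.card_univ] at this
    omega
  -- the other right-going edges
  have hex : ∀ e : V × V, ∃ w : V, e ∈ D1 → ∃ b, Wedge pos G e.1 e.2 b w := by
    intro e
    by_cases he : e ∈ D1
    · rw [hD1, Finset.mem_filter, hD, Finset.mem_filter] at he
      obtain ⟨⟨-, ha, hxa⟩, c, hc, hxc, hca⟩ := he
      obtain ⟨b, w, hw⟩ := exists_wedge ha hxa hc hxc hca
      exact ⟨w, fun _ => ⟨b, hw⟩⟩
    · exact ⟨e.1, fun h => absurd h he⟩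
  choose f hf using hex
  have h1 : D1.card ≤ 2 * Fintype.card V := by
    have hle : D1.card ≤ (Finset.univ : Finset (V × Bool)).card := by
      refine Finset.card_le_card_of_injOn (fun e => (f e, decide (f e = e.2))) ?_ ?_
      · intro e _
        simp
      · intro e he e' he' hee
        rw [Finset.mem_coe] at he he'
        obtain ⟨b, hb⟩ := hf e he
        obtain ⟨b', hb'⟩ := hf e' he'
        simp only [Prod.mk.injEq, decide_eq_decide] at hee
        obtain ⟨h1, h2⟩ := hee
        rw [← h1] at hb' h2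
        obtain ⟨h3, h4⟩ := wedge_inj hP hx hb hb' h2
        exact Prod.ext h3 h4
    rw [Finset.card_univ, Fintype.card_prod, Fintype.card_bool] at hle
    omega
  rw [Nat.card_eq_fintype_card]
  omega

/-- a shear making all `x`-coordinates distinct -/
lemma exists_shear {V : Type*} [Finite V] (pos : V → ℝ × ℝ) (hinj : Function.Injective pos) :
    ∃ c : ℝ, Function.Injective fun v => (pos v).1 + c * (pos v).2 := by
  classical
  have hfin : (⋃ e : V × V, {c : ℝ | e.1 ≠ e.2 ∧
      (pos e.1).1 + c * (pos e.1).2 = (pos e.2).1 + c * (pos e.2).2}).Finite := by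
    refine Set.finite_iUnion fun e => Set.Subsingleton.finite ?_
    rintro c ⟨hne, hc⟩ c' ⟨-, hc'⟩
    by_contra hcc
    have h1 : (c - c') * ((pos e.1).2 - (pos e.2).2) = 0 := by linarith
    have h2 : (pos e.1).2 = (pos e.2).2 := by
      rcases mul_eq_zero.1 h1 with h | h
      · exact absurd (sub_eq_zero.1 h) hcc
      · linarith
    have h3 : (pos e.1).1 = (pos e.2).1 := by
      rw [h2] at hc
      linarith
    exact hne (hinj (Prod.ext h3 h2))
  obtain ⟨c, hc⟩ := hfin.infinite_compl.nonempty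
  refine ⟨c, fun u v huv => ?_⟩
  by_contra hne
  exact hc (Set.mem_iUnion.2 ⟨(u, v), hne, huv⟩)

/-- the shear as a linear equivalence -/
noncomputable def shear (c : ℝ) : (ℝ × ℝ) ≃ₗ[ℝ] (ℝ × ℝ) where
  toFun z := (z.1 + c * z.2, z.2)
  invFun z := (z.1 - c * z.2, z.2)
  map_add' z w := by ext <;> simp <;> ring
  map_smul' a z := by ext <;> simp <;> ring
  left_inv z := by ext <;> simp
  right_inv z := by ext <;> simp

lemma mem_segment_equiv (L : (ℝ × ℝ) ≃ₗ[ℝ] (ℝ × ℝ)) {a b z : ℝ × ℝ} :
    L z ∈ segment ℝ (L a) (L b) ↔ z ∈ segment ℝ a b := by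
  constructor
  · rintro ⟨s, t, hs, ht, hst, h⟩
    refine ⟨s, t, hs, ht, hst, ?_⟩
    apply L.injective
    rw [← h]
    simp
  · rintro ⟨s, t, hs, ht, hst, h⟩
    refine ⟨s, t, hs, ht, hst, ?_⟩
    rw [← h]
    simp

lemma plane_map {V : Type*} {pos : V → ℝ × ℝ} {E : V → V → Prop} (L : (ℝ × ℝ) ≃ₗ[ℝ] (ℝ × ℝ))
    (hP : Plane pos E) : Plane (fun v => L (pos v)) E := by
  constructor
  · intro u v w huv hw
    rw [mem_segment_equiv] at hw
    exact hP.1 u v w huv hw
  · intro u v u' v' h h' hne z hz hz'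
    obtain ⟨z, rfl⟩ := L.surjective z
    rw [mem_segment_equiv] at hz hz'
    obtain ⟨w, h1, h2, h3⟩ := hP.2 u v u' v' h h' hne z hz hz'
    exact ⟨w, h1, h2, by rw [h3]⟩

theorem edges_lt {V : Type*} [Finite V] [Nonempty V] (pos : V → ℝ × ℝ) (G : SimpleGraph V)
    (hinj : Function.Injective pos) (hP : Plane pos G.Adj) :
    G.edgeSet.ncard < 3 * Nat.card V := by
  obtain ⟨c, hc⟩ := exists_shear pos hinj
  refine edges_lt_of_inj (fun v => shear c (pos v)) G ?_ (plane_map (shear c) hP)
  exact hc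

theorem partA : PartA := by
  intro V _ _ pos G hinj hP
  exact edges_lt pos G hinj hP

end Pool.Agent.GT
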